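import Pool.Agent.H18.XX.TA
import Pool.Agent.H10.IPF.BLG

/-!
# MP_0f8dca_lc, row BLR of exh_modules: a function does not see a block, relative version
-/

set_option autoImplicit false

namespace Pool.Agent.H88.XX

open Finset Pool.Agent.H6.NB Pool.Agent.H70.EH Pool.Agent.H78.XQ Pool.Agent.H66.IQ
open Pool.Agent.H18.XX
open Pool.Agent.H66.XP (Bc)
open Pool.Agent.H10.IPF (blg_one blg_inner)

/-- the average of a relative inequality between mixtures -/
theorem mn_rel {V : Type} [Fintype V] [DecidableEq V] {T : Type} [Fintype T]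
    (a b : T → ℝ) (f g : T → (V → Bool) → ℝ) (ε τ : ℝ)
    (h : ∀ y, |∑ p, a p * f p y - ∑ p, b p * f p y| ≤ ε * ∑ p, b p * g p y + τ) :
    |∑ p, a p * mn (f p) - ∑ p, b p * mn (f p)| ≤ ε * ∑ p, b p * mn (g p) + τ := by
  have hc : (0 : ℝ) < 2 ^ Fintype.card V := by positivity
  have key : ∀ (a : T → ℝ) (f : T → (V → Bool) → ℝ), ∑ p, a p * mn (f p) =
      (∑ y, ∑ p, a p * f p y) / 2 ^ Fintype.card V := by
    intro a f
    rw [Finset.sum_comm, Finset.sum_div]
    refine Finset.sum_congr rfl fun p _ => ?_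
    unfold mn
    rw [← Finset.mul_sum]
    ring
  rw [key, key, key, ← sub_div, ← Finset.sum_sub_distrib, abs_div, abs_of_pos hc,
    div_le_iff₀ hc]
  refine (Finset.abs_sum_le_sum_abs _ _).trans
    ((Finset.sum_le_sum fun y _ => h y).trans (le_of_eq ?_))
  have hcard : (Fintype.card (V → Bool) : ℝ) = 2 ^ Fintype.card V := by simp
  rw [Finset.sum_add_distrib, ← Finset.mul_sum, Finset.sum_const, Finset.card_univ,
    nsmul_eq_mul, hcard]
  field_simp

theorem pf_BLR (hHYC : Pool.Agent.H18.XX.T_HYC) (hSYR : Pool.Agent.H18.XX.T_SYR)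
    (hWEX : Pool.Agent.H66.IP.T_WEX) (hMUV : Pool.Agent.H70.EH.T_MUV) :
    Pool.Agent.H18.XX.T_BLR := by
  classical
  intro r l q R n hSz b F H e₁ t₁ e₂ t₂ hF hH he₁ ht₁ he₂ he₂1 ht₂ hsm hF1 hH1 hF2
  have hcard : Fintype.card (Fin n → Bool) = 2 ^ n := by simp
  have hmv0 : ∀ (b : Bool) (P : (Fin (2 * l) → Bool) → VV q → Bool), 0 ≤ ∏ u, mv b q (P u) :=
    fun b P => Finset.prod_nonneg fun u _ => (hMUV b q).1 _
  have hcc : (0 : ℝ) < 2 ^ Fintype.card (Fin n → Bool) := by positivity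
  have hcf : (Fintype.card ((Fin n → Bool) → Bool) : ℝ) = 2 ^ Fintype.card (Fin n → Bool) := by
    simp
  set Fm : ((Fin (2 * l) → Bool) → VV q → Bool) → ℝ := fun P => mn fun h => F (P, h) with hFm
  set Hm : ((Fin (2 * l) → Bool) → VV q → Bool) → ℝ := fun P => mn fun h => H (P, h) with hHm
  have hFm1 : ∀ P, |Fm P| ≤ 1 := by
    intro P
    simp only [hFm, mn]
    rw [abs_div, abs_of_pos hcc, div_le_one hcc]
    refine (Finset.abs_sum_le_sum_abs _ _).trans
      ((Finset.sum_le_sum fun h _ => hF (P, h)).trans (le_of_eq ?_))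
    rw [Finset.sum_const, Finset.card_univ, nsmul_eq_mul, mul_one, hcf]
  have hHm0 : ∀ P, 0 ≤ Hm P := by
    intro P
    simp only [hHm, mn]
    exact div_nonneg (Finset.sum_nonneg fun h _ => (hH _).1) hcc.le
  -- step one
  have hinner : ∀ P, |∑ h, mB q l R n b (P, h) * F (P, h) - (∏ u, mv b q (P u)) * Fm P| ≤
      (∏ u, mv b q (P u)) * (if SayX q l b P then 0 else 1) +
        (∏ u, mv b q (P u)) * (e₂ * Hm P + t₂) := by
    intro P
    have hr0 : 0 ≤ e₂ * Hm P + t₂ := add_nonneg (mul_nonneg he₂ (hHm0 P)) ht₂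
    by_cases hS : SayX q l b P
    · obtain ⟨W, hW1, hW2, hW3⟩ := hWEX r l q R n hSz b P hS
      rw [blg_inner hS hW1 (fun h => F (P, h)), if_pos hS, mul_zero, zero_add, ← mul_sub, abs_mul,
        abs_of_nonneg (hmv0 b P)]
      exact mul_le_mul_of_nonneg_left (hF2 P W hW3) (hmv0 b P)
    · have h1 : ∑ h, mB q l R n b (P, h) * F (P, h) = 0 := by
        refine Finset.sum_eq_zero fun h _ => ?_
        unfold mB
        rw [if_neg (fun h2 => hS h2.1), zero_mul]
      rw [h1, if_neg hS, zero_sub, abs_neg, mul_one, abs_mul, abs_of_nonneg (hmv0 b P)]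
      have h2 : (∏ u, mv b q (P u)) * |Fm P| ≤ (∏ u, mv b q (P u)) * 1 :=
        mul_le_mul_of_nonneg_left (hFm1 P) (hmv0 b P)
      have h3 := mul_nonneg (hmv0 b P) hr0
      linarith
  obtain ⟨Sb, hSb⟩ : ∃ Sb : ℝ, Sb = ∑ P, (∏ u, mv b q (P u)) * Hm P := ⟨_, rfl⟩
  obtain ⟨S0, hS0⟩ : ∃ S0 : ℝ, S0 = ∑ P, (∏ u, mv false q (P u)) * Hm P := ⟨_, rfl⟩
  have hstep1 : |∑ c, mB q l R n b c * F c - ∑ P, (∏ u, mv b q (P u)) * Fm P| ≤
      Real.exp (-(2 ^ l / 2)) + (e₂ * Sb + t₂) := by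
    rw [Fintype.sum_prod_type, ← Finset.sum_sub_distrib]
    refine (Finset.abs_sum_le_sum_abs _ _).trans ?_
    refine (Finset.sum_le_sum fun P _ => hinner P).trans ?_
    rw [Finset.sum_add_distrib]
    have h1 : ∑ P, (∏ u, mv b q (P u)) * (e₂ * Hm P + t₂) = e₂ * Sb + t₂ := by
      rw [hSb, Finset.mul_sum]
      rw [Finset.sum_congr rfl fun (P : (Fin (2 * l) → Bool) → VV q → Bool) _ =>
        show (∏ u, mv b q (P u)) * (e₂ * Hm P + t₂) =
          e₂ * ((∏ u, mv b q (P u)) * Hm P) + (∏ u, mv b q (P u)) * t₂ by ring,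
        Finset.sum_add_distrib, ← Finset.sum_mul, blg_one hMUV, one_mul]
    rw [h1]
    have := hSYR r l q R n hSz b
    linarith
  -- step two
  have hstep2 : ∀ F : Bc q l n → ℝ, ∑ c, m0 q l n c * F c =
      ∑ P, (∏ u, mv false q (P u)) * mn fun h => F (P, h) := by
    intro F
    rw [Fintype.sum_prod_type]
    refine Finset.sum_congr rfl fun P _ => ?_
    simp only [mn, m0]
    rw [hcard, mul_div_assoc', Finset.mul_sum, Finset.sum_div]
    refine Finset.sum_congr rfl fun h _ => ?_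
    ring
  -- step three
  have hcU : (Fintype.card (Fin (2 * l) → Bool) : ℝ) = 2 ^ (2 * l) := by
    have : Fintype.card (Fin (2 * l) → Bool) = 2 ^ (2 * l) := by simp
    rw [this]
    push_cast
    rfl
  have hstep3 : ∀ G : Bc q l n → ℝ, (∀ P u h, |∑ p, mv true q p * G (Function.update P u p, h) -
      ∑ p, mv false q p * G (Function.update P u p, h)| ≤
      e₁ * ∑ p, mv false q p * H (Function.update P u p, h) + t₁) →
      ∀ (P : (Fin (2 * l) → Bool) → VV q → Bool) (u : Fin (2 * l) → Bool),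
      |∑ p, mv b q p * (mn fun h => G (Function.update P u p, h)) -
        ∑ p, mv false q p * (mn fun h => G (Function.update P u p, h))| ≤
        e₁ * ∑ p, mv false q p * Hm (Function.update P u p) + t₁ := by
    intro G hG P u
    refine mn_rel (mv b q) (mv false q) (fun p h => G (Function.update P u p, h))
      (fun p h => H (Function.update P u p, h)) e₁ t₁ fun h => ?_
    rcases b with _ | _
    · rw [sub_self, abs_zero]
      exact add_nonneg (mul_nonneg he₁ (Finset.sum_nonneg fun p _ =>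
        mul_nonneg ((hMUV false q).1 _) (hH _).1)) ht₁
    · exact hG P u h
  have hc1 := hHYC (Fin (2 * l) → Bool) (VV q → Bool) (mv b q) (mv false q) Fm Hm e₁ t₁
    (hMUV b q).1 (hMUV false q).1 (hMUV b q).2.1 (hMUV false q).2.1 hHm0 he₁
    (by rw [hcU]; exact hsm) ht₁ (hstep3 F hF1) (hstep3 H hH1)
  have hc2 := hHYC (Fin (2 * l) → Bool) (VV q → Bool) (mv b q) (mv false q) Hm Hm e₁ t₁
    (hMUV b q).1 (hMUV false q).1 (hMUV b q).2.1 (hMUV false q).2.1 hHm0 he₁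
    (by rw [hcU]; exact hsm) ht₁ (hstep3 H hH1) (hstep3 H hH1)
  rw [hcU, ← hS0] at hc1 hc2
  rw [← hSb] at hc2
  have hS00 : 0 ≤ S0 := by
    rw [hS0]
    exact Finset.sum_nonneg fun P _ => mul_nonneg (hmv0 false P) (hHm0 P)
  have hSble : Sb ≤ 2 * S0 + 4 * (2 ^ (2 * l) * t₁) := by
    have h1 := (abs_le.1 hc2).2
    have h2 : 3 * (2 ^ (2 * l) * e₁) * S0 ≤ 1 * S0 := mul_le_mul_of_nonneg_right hsm hS00
    linarith
  have hprod : e₂ * Sb ≤ 2 * e₂ * S0 + 4 * (2 ^ (2 * l) * t₁) := by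
    have h1 : e₂ * Sb ≤ e₂ * (2 * S0 + 4 * (2 ^ (2 * l) * t₁)) :=
      mul_le_mul_of_nonneg_left hSble he₂
    have h2 : 0 ≤ 4 * (2 ^ (2 * l) * t₁) := by positivity
    have h3 : e₂ * (4 * (2 ^ (2 * l) * t₁)) ≤ 1 * (4 * (2 ^ (2 * l) * t₁)) :=
      mul_le_mul_of_nonneg_right he₂1 h2
    linarith
  rw [hstep2 F, hstep2 H]
  have h7 := abs_sub_le (∑ c, mB q l R n b c * F c) (∑ P, (∏ u, mv b q (P u)) * Fm P)
    (∑ P, (∏ u, mv false q (P u)) * Fm P)
  have h8 : ∑ P, (∏ u, mv false q (P u)) * (mn fun h => H (P, h)) = S0 := by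
    rw [hS0]
  rw [h8]
  have h9 : |∑ c, mB q l R n b c * F c - ∑ P, (∏ u, mv false q (P u)) * Fm P| ≤
      (3 * (2 ^ (2 * l) * e₁) + 2 * e₂) * S0 +
        (8 * (2 ^ (2 * l) * t₁) + t₂ + Real.exp (-(2 ^ l / 2))) := by linarith
  exact h9

end Pool.Agent.H88.XX
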