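import Pool.Agent.H18.XX.TB
import Pool.Agent.H66.AVH.REQ

/-!
# The exponential hierarchy in EQP: the expectation of the test function (row RXZ, second copy)
-/

set_option autoImplicit false

namespace Pool.Agent.H88.XX

open Finset Pool.Agent.H70.OQ Pool.Agent.H70.EH Pool.Agent.H70.EI Pool.Agent.H78.XQ
open Pool.Agent.H6.NB hiding sg
open Pool.Agent.H66.IP (Local ins sp dm IsZ scl mBp m0p)
open Pool.Agent.H66.IQ Pool.Agent.H66.AV
open Pool.Agent.H17.XW (Una)
open Pool.Agent.H18.XX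
open Pool.Agent.H66.AVH (req_sq req_ln tests_mono within_mono)

theorem rxz_num : ∀ L : ℕ, 11 ≤ L → 12 * L ^ 2 ≤ 2 ^ L := by
  intro L hL
  induction L, hL using Nat.le_induction with
  | base => norm_num
  | succ L hL ih =>
    have h1 : 12 * (L + 1) ^ 2 ≤ 2 * (12 * L ^ 2) := by nlinarith
    calc 12 * (L + 1) ^ 2 ≤ 2 * (12 * L ^ 2) := h1
      _ ≤ 2 * 2 ^ L := Nat.mul_le_mul_left _ ih
      _ = 2 ^ (L + 1) := by rw [pow_succ]; ring

theorem pf_RXZ (hPFR : T_PFR) (hHYZ : T_HYZ) (hLOY : T_LOY) (hID1 : Pool.Agent.H66.AV.T_ID1)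
    (hID2 : Pool.Agent.H66.AV.T_ID2) (hAST : Pool.Agent.H66.AV.T_AST)
    (hOVL : Pool.Agent.H66.AV.T_OVL) : Pool.Agent.H18.XX.T_RXZ := by
  intro V k
  obtain ⟨n₂, h2⟩ := hPFR V k
  obtain ⟨n₃, h3⟩ := hID1 k
  obtain ⟨n₄, h4⟩ := hID2 k
  refine ⟨n₂ + n₃ + n₄ + 2 ^ 11, fun n hn A C B hB hA hC hrel ε hε E O hO g => ?_⟩
  set L : ℕ := Nat.log 2 n with hLdef
  have hn11 : 2 ^ 11 ≤ n := by omega
  have hL11 : 11 ≤ L := by
    rw [hLdef]
    exact (Nat.le_log_iff_pow_le (by norm_num) (by omega)).2 hn11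
  have hLn : 2 ^ L ≤ n := Nat.pow_log_le_self 2 (by omega)
  have h6 : 2 * L ^ 2 ≤ n / 6 := by
    have := rxz_num L hL11
    omega
  have hA6 : ∀ x, (A x).Within (2 ^ (n / 6)) := fun x =>
    within_mono (Nat.pow_le_pow_right (by norm_num) h6) (hA x)
  set one : Prot k := .test (.leaf true) with hone
  have hone4 : one.Within (2 ^ (2 * L ^ 2)) := ⟨Nat.zero_le _, Nat.zero_le _, trivial⟩
  have hval1 : ∀ O, one.val O = 1 := fun O => by
    show (if (Exam.leaf true : Exam k).eval O = true then (1 : ℝ) else 0) = 1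
    exact if_pos rfl
  -- a pair of protocols
  have hpair : ∀ (G₁ G₂ : Prot k), G₁.Within (2 ^ (2 * L ^ 2)) → G₂.Within (2 ^ (2 * L ^ 2)) →
      ∀ g₀ g₁ g₂ : List Bool → Bool,
      |∑ P, (wz V E O g₀ P - wy V E O (L + 18) g₀ P) * (G₁.val (O P g₁) * G₂.val (O P g₂))| ≤
        (1 / 2) ^ (L + 18) ^ 3 := by
    intro G₁ G₂ hG₁ hG₂ g₀ g₁ g₂
    have h := (hHYZ V E O hO g₀).2.2.2 (L + 18) (fun P => G₁.val (O P g₁) * G₂.val (O P g₂))
      (by omega) (fun p hs => h2 n (by omega) G₁ G₂ hG₁ hG₂ E O hO g₀ g₁ g₂ p hs)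
    rw [← Finset.sum_sub_distrib] at h
    simpa only [sub_mul] using h
  have hcard : (Fintype.card (Fin n → Bool) : ℝ) = 2 ^ n := by simp
  have h4n : (4 : ℝ) ^ n = (2 ^ n) ^ 2 := by
    rw [← pow_mul, mul_comm, pow_mul]; norm_num
  have h2n : (0 : ℝ) < 2 ^ n := by positivity
  set δ : ℝ := (1 / 2) ^ (L + 18) ^ 3 with hδ
  have hδ0 : 0 ≤ δ := by positivity
  -- the weights of the blocks of small scale
  have hwg : ∀ (z : Wn n k) P, wy V E O (L + 18) (ovl n k g (tbl z)) P = wy V E O (L + 18) g P := by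
    intro z P
    refine hLOY V E O hO n _ _ (by omega) (fun w hw => ?_) P
    refine (hOVL n k g).2.1 (tbl z) w fun x q hwx => ?_
    have := (hAST.1 n k x q).1
    rw [← hwx] at this
    omega
  have hz : ∀ z : Wn n k, ∑ P, wz V E O (ovl n k g (tbl z)) P *
      tst ε A C (fun T => O P (ovl n k g T)) z ≤
      ∑ P, wy V E O (L + 18) g P * tst ε A C (fun T => O P (ovl n k g T)) z +
        (36 / ε ^ 2 + 4 / ε) * δ := by
    intro z
    set D : (∀ p : {a // a ∈ E}, Cz V p.1) → ℝ := fun P =>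
      wz V E O (ovl n k g (tbl z)) P - wy V E O (L + 18) (ovl n k g (tbl z)) P with hD
    have hs0 := req_sq D (fun x => sg (z x).1)
      (fun x P => (A x).val (O P (ovl n k g (tbl (zer z x))))) δ
      (fun x => by unfold sg; split_ifs <;> norm_num)
      (fun x x' => hpair (A x) (A x') (hA x) (hA x') _ _ _)
      (fun x => by
        have h := hpair (A x) one (hA x) hone4 (ovl n k g (tbl z))
          (ovl n k g (tbl (zer z x))) g
        simpa only [hval1, mul_one] using h)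
      (by
        have h := hpair one one hone4 hone4 (ovl n k g (tbl z)) g g
        simpa only [hval1, mul_one] using h)
    have hs1 := req_ln D (fun x => (z x).1)
      (fun x P => (A x).val (O P (ovl n k g (tbl (zer z x)))))
      (fun x P => (C x).val (O P (ovl n k g (tbl z)))) δ hδ0
      (fun x => hpair (A x) (C x) (hA x) (hC x) _ _ _)
      (fun x => by
        have h := hpair (A x) one (hA x) hone4 (ovl n k g (tbl z))
          (ovl n k g (tbl (zer z x))) g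
        simpa only [hval1, mul_one] using h)
    rw [hcard] at hs0 hs1
    have e1 : ∑ P, wz V E O (ovl n k g (tbl z)) P *
        tst ε A C (fun T => O P (ovl n k g T)) z =
        ∑ P, wy V E O (L + 18) g P * tst ε A C (fun T => O P (ovl n k g T)) z +
        (16 / (ε ^ 2 * 4 ^ n) * ∑ P, D P * (∑ x, sg (z x).1 *
          ((A x).val (O P (ovl n k g (tbl (zer z x)))) - 1 / 2)) ^ 2 +
        2 / (ε * 2 ^ n) * ∑ P, D P * (∑ x, if (z x).1 then
          (A x).val (O P (ovl n k g (tbl (zer z x)))) *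
          (1 - (C x).val (O P (ovl n k g (tbl z)))) else 0)) := by
      rw [Finset.mul_sum, Finset.mul_sum, ← Finset.sum_add_distrib, ← Finset.sum_add_distrib]
      refine Finset.sum_congr rfl fun P _ => ?_
      have e2 : tst ε A C (fun T => O P (ovl n k g T)) z =
          16 / (ε ^ 2 * 4 ^ n) * (∑ x, sg (z x).1 *
          ((A x).val (O P (ovl n k g (tbl (zer z x)))) - 1 / 2)) ^ 2 +
          2 / (ε * 2 ^ n) * (∑ x, if (z x).1 then
          (A x).val (O P (ovl n k g (tbl (zer z x)))) *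
          (1 - (C x).val (O P (ovl n k g (tbl z)))) else 0) := rfl
      rw [e2]
      simp only [hD, hwg z P]
      ring
    rw [e1]
    have hα : 0 ≤ 16 / (ε ^ 2 * 4 ^ n) := by positivity
    have hβ : 0 ≤ 2 / (ε * 2 ^ n) := by positivity
    have f1 := mul_le_mul_of_nonneg_left hs0 hα
    have f2 := mul_le_mul_of_nonneg_left hs1 hβ
    have f3 : 16 / (ε ^ 2 * 4 ^ n) * (((2 : ℝ) ^ n) ^ 2 * (9 / 4 * δ)) = 36 / ε ^ 2 * δ := by
      rw [h4n]; field_simp; ring
    have f4 : 2 / (ε * 2 ^ n) * ((2 : ℝ) ^ n * (2 * δ)) = 4 / ε * δ := by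
      field_simp; ring
    rw [f3] at f1
    rw [f4] at f2
    have f5 : (36 / ε ^ 2 + 4 / ε) * δ = 36 / ε ^ 2 * δ + 4 / ε * δ := by ring
    rw [f5]
    linarith
  refine (Finset.sum_le_sum fun z _ => hz z).trans ?_
  rw [Finset.sum_add_distrib, Finset.sum_comm]
  have hK : ∀ P ∈ (univ : Finset (∀ p : {a // a ∈ E}, Cz V p.1)),
      ∑ z : Wn n k, wy V E O (L + 18) g P * tst ε A C (fun T => O P (ovl n k g T)) z ≤
      wy V E O (L + 18) g P * (Fintype.card (Wn n k) * (32 / ε ^ 2 * (1 / 2) ^ (n / 3) +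
        2 / ε * (1 / B + 2 * (1 / 2) ^ (n / 3)))) := by
    intro P _
    rw [← Finset.mul_sum]
    refine mul_le_mul_of_nonneg_left ?_ (((hHYZ V E O hO g).1 P).2 _)
    have hLit := ((hOVL n k g).2.2.2 (lx V) E O hO P).1
    have g1 := h3 n (by omega) A C B hB hA6 hrel _ hLit
    have g2 := h4 n (by omega) A hA6 _ hLit
    have e3 : ∑ z : Wn n k, tst ε A C (fun T => O P (ovl n k g T)) z =
        16 / (ε ^ 2 * 4 ^ n) * ∑ z : Wn n k, s0 A (fun T => O P (ovl n k g T)) z ^ 2 +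
        2 / (ε * 2 ^ n) * ∑ z : Wn n k, s1 A C (fun T => O P (ovl n k g T)) z := by
      rw [Finset.mul_sum, Finset.mul_sum, ← Finset.sum_add_distrib]
      rfl
    rw [e3]
    have hα : 0 ≤ 16 / (ε ^ 2 * 4 ^ n) := by positivity
    have hβ : 0 ≤ 2 / (ε * 2 ^ n) := by positivity
    have f1 := mul_le_mul_of_nonneg_left g2 hα
    have f2 := mul_le_mul_of_nonneg_left g1 hβ
    have f3 : 16 / (ε ^ 2 * 4 ^ n) * ((Fintype.card (Wn n k) : ℝ) * 4 ^ n *
        (2 * (1 / 2) ^ (n / 3))) = Fintype.card (Wn n k) * (32 / ε ^ 2 * (1 / 2) ^ (n / 3)) := by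
      field_simp; ring
    have f4 : 2 / (ε * 2 ^ n) * ((Fintype.card (Wn n k) : ℝ) * 2 ^ n *
        (1 / B + 2 * (1 / 2) ^ (n / 3))) =
        Fintype.card (Wn n k) * (2 / ε * (1 / B + 2 * (1 / 2) ^ (n / 3))) := by
      have : ε ≠ 0 := hε.ne'
      have : (2 : ℝ) ^ n ≠ 0 := h2n.ne'
      generalize (1 / (B : ℝ) + 2 * (1 / 2) ^ (n / 3)) = y
      field_simp
    rw [f3] at f1
    rw [f4] at f2
    calc _ ≤ _ := add_le_add f1 f2
      _ = _ := by ring
  have hK0 : 0 ≤ (Fintype.card (Wn n k) : ℝ) * (32 / ε ^ 2 * (1 / 2) ^ (n / 3) +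
        2 / ε * (1 / B + 2 * (1 / 2) ^ (n / 3))) := by positivity
  have hK1 := (Finset.sum_le_sum hK)
  rw [← Finset.sum_mul] at hK1
  have hK2 := mul_le_mul_of_nonneg_right ((hHYZ V E O hO g).2.2.1 (L + 18)) hK0
  rw [Finset.sum_const, Finset.card_univ, nsmul_eq_mul]
  have hK3 : (5 / 4 : ℝ) * ((Fintype.card (Wn n k) : ℝ) * (32 / ε ^ 2 * (1 / 2) ^ (n / 3) +
        2 / ε * (1 / B + 2 * (1 / 2) ^ (n / 3)))) ≤
      2 * ((Fintype.card (Wn n k) : ℝ) * (32 / ε ^ 2 * (1 / 2) ^ (n / 3) +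
        2 / ε * (1 / B + 2 * (1 / 2) ^ (n / 3)))) :=
    mul_le_mul_of_nonneg_right (by norm_num) hK0
  calc _ ≤ 2 * ((Fintype.card (Wn n k) : ℝ) * (32 / ε ^ 2 * (1 / 2) ^ (n / 3) +
        2 / ε * (1 / B + 2 * (1 / 2) ^ (n / 3)))) +
        Fintype.card (Wn n k) * ((36 / ε ^ 2 + 4 / ε) * δ) :=
      add_le_add ((hK1.trans hK2).trans hK3) le_rfl
    _ = _ := by ring

end Pool.Agent.H88.XX
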