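import Pool.Agent.H18.XX.TB
import Pool.Agent.H10.AVH.SUM

/-!
# The exponential hierarchy in EQP: all tables at once (row SUZ, second copy)
-/

set_option autoImplicit false

namespace Pool.Agent.H88.XX

open Finset Pool.Agent.H6.NB Pool.Agent.H70.OQ Pool.Agent.H70.EH Pool.Agent.H70.EI Pool.Agent.H78.XQ
open Pool.Agent.H66.IP (Local ins sp dm IsZ scl mBp m0p)
open Pool.Agent.H66.IQ Pool.Agent.H66.AV
open Pool.Agent.H17.XW (Una)
open Pool.Agent.H18.XX
open Pool.Agent.H10.AVH (sum_small_mono sum_bd_mono sum_bd_tests sum_tests_bd sum_val01 sum_upd)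

theorem pf_SUZ (hAMP : Pool.Agent.H66.AV.T_AMP) (hPOW : Pool.Agent.H66.AV.T_POW)
    (hNUZ : T_NUZ) (hRXZ : T_RXZ) (hRCT : Pool.Agent.H66.AV.T_RCT)
    (hGZA : Pool.Agent.H66.AV.T_GZA) (hOVL : Pool.Agent.H66.AV.T_OVL) :
    Pool.Agent.H18.XX.T_SUZ := by
  classical
  intro V k
  obtain ⟨n₂, h2⟩ := hNUZ
  obtain ⟨n₃, h3⟩ := hRXZ V k
  refine ⟨n₂ + n₃, fun n hn G hGW => ?_⟩
  set L : ℕ := Nat.log 2 n with hL
  set j : ℕ := L ^ 2 / 16 with hj
  obtain ⟨e1, e2, e3, e4⟩ := h2 n (by omega) L j rfl rfl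
  set a : ℕ := 4 * j + 9 with ha
  set B : ℕ := 2 ^ (3 * j + 5) with hB
  have hB1 : 1 ≤ B := Nat.one_le_two_pow
  have hA : ∀ x : Fin n → Bool, ∃ G' : Prot k,
      G'.moves ≤ (2 * a + 1) * 4 ^ a * (G (List.ofFn x)).moves ∧
      (∀ d s, Bd d s (G (List.ofFn x)) → Bd ((2 * a + 1) * 4 ^ a * d) s G') ∧
      ∀ O, (2 / 3 ≤ (G (List.ofFn x)).val O → 1 - (1 / 2) ^ a ≤ G'.val O) ∧
        ((G (List.ofFn x)).val O ≤ 1 / 3 → G'.val O ≤ (1 / 2) ^ a) :=
    fun x => hAMP k (G (List.ofFn x)) a (by omega)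
  choose A hAm hAb hAv using hA
  have hC : ∀ x : Fin n → Bool, ∃ G' : Prot k, G'.moves ≤ B * (A x).moves ∧
      (∀ d s, Bd d s (A x) → Bd (B * d) s G') ∧
      ∀ O, 1 - G'.val O = (1 - (A x).val O) ^ B := fun x => (hPOW k (A x) B).2
  choose C hCm hCb hCv using hC
  have hs2 : 2 ^ L ^ 2 ≤ 2 ^ (2 * L ^ 2) := Nat.pow_le_pow_right (by norm_num) (by omega)
  have hAB : ∀ x, Bd ((2 * a + 1) * 4 ^ a * 2 ^ L ^ 2) (2 ^ L ^ 2) (A x) :=
    fun x => hAb x _ _ (sum_tests_bd _ (hGW x).2)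
  have hAW : ∀ x, (A x).Within (2 ^ (2 * L ^ 2)) := fun x =>
    ⟨((hAm x).trans (Nat.mul_le_mul_left _ (hGW x).1)).trans e1,
      sum_bd_tests _ (sum_bd_mono e1 hs2 _ (hAB x))⟩
  have hCW : ∀ x, (C x).Within (2 ^ (2 * L ^ 2)) := fun x =>
    ⟨((hCm x).trans (Nat.mul_le_mul_left _
        ((hAm x).trans (Nat.mul_le_mul_left _ (hGW x).1)))).trans e2,
      sum_bd_tests _ (sum_bd_mono e2 hs2 _ (hCb x _ _ (hAB x)))⟩
  have hε : (0 : ℝ) < (1 / 2) ^ j := by positivity
  refine ⟨A, C, fun Q z => ⟨?_, fun hQ ht => ?_⟩, fun M hk hn' E O hO => ?_⟩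
  · unfold tst
    have h5 : 0 ≤ s1 A C Q z := by
      unfold s1
      refine Finset.sum_nonneg fun x _ => ?_
      split_ifs
      · exact mul_nonneg (sum_val01 _ _).1 (sub_nonneg.2 (sum_val01 _ _).2)
      · exact le_rfl
    have h6 : 0 ≤ 16 / (((1 / 2 : ℝ) ^ j) ^ 2 * 4 ^ n) := by positivity
    have h7 : 0 ≤ 2 / ((1 / 2 : ℝ) ^ j * 2 ^ n) := by positivity
    exact add_nonneg (mul_nonneg h6 (sq_nonneg _)) (mul_nonneg h7 h5)
  · exact hRCT n k G A C a B _ hε e3 hAv hCv hB1 Q z hQ ht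
  · set t : Fin M × Fin M := (⟨k, hk⟩, ⟨n, hn'⟩) with ht
    let F : Za M → ℝ := fun z => ∑ P, wz V E O (gza M z) P *
        tst ((1 / 2) ^ j) A C (fun T => O P (ovl n k (gza M z) T)) (z t)
    show ∑ z : Za M, F z ≤ Fintype.card (Za M) * (1 / 2) ^ (L ^ 2 / 8)
    by_cases hne : Nonempty (Za M)
    · obtain ⟨z₀⟩ := hne
      have hW : (0 : ℝ) < Fintype.card (Wn n k) := by
        have : Nonempty (Wn n k) := ⟨z₀ t⟩
        exact_mod_cast Fintype.card_pos
      have h5 : ∀ z : Za M, ∑ c : Wn n k, F (Function.update z t c) ≤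
          Fintype.card (Wn n k) * (1 / 2) ^ (L ^ 2 / 8) := by
        intro z
        have h6 : ∀ c : Wn n k, F (Function.update z t c) =
            ∑ P, wz V E O (ovl n k (gza M z) (tbl c)) P *
              tst ((1 / 2) ^ j) A C (fun T => O P (ovl n k (gza M z) T)) c := by
          intro c
          have h7 : gza M (Function.update z t c) = ovl n k (gza M z) (tbl c) := hGZA M z t c
          have h8 : (Function.update z t c) t = c := Function.update_self t c z
          show ∑ P, wz V E O (gza M (Function.update z t c)) P *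
            tst ((1 / 2) ^ j) A C
              (fun T => O P (ovl n k (gza M (Function.update z t c)) T))
              ((Function.update z t c) t) = _
          rw [h7, h8]
          refine Finset.sum_congr rfl fun P _ => ?_
          have h9 : (fun T => O P (ovl n k (ovl n k (gza M z) (tbl c)) T)) =
              fun T => O P (ovl n k (gza M z) T) := by
            funext T
            rw [(hOVL n k (gza M z)).2.2.1 T (tbl c)]
          rw [h9]
        rw [Finset.sum_congr rfl fun c _ => h6 c]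
        refine (h3 n (by omega) A C B hB1 hAW hCW hCv _ hε E O hO (gza M z)).trans ?_
        exact mul_le_mul_of_nonneg_left e4 (Nat.cast_nonneg _)
      have h6 : (Fintype.card (Wn n k) : ℝ) * ∑ z : Za M, F z ≤
          Fintype.card (Wn n k) * (Fintype.card (Za M) * (1 / 2) ^ (L ^ 2 / 8)) := by
        have h7 := sum_upd (W := fun t : Fin M × Fin M => Wn t.2.1 t.1.1) t F
        calc (Fintype.card (Wn n k) : ℝ) * ∑ z : Za M, F z =
            ∑ z : Za M, ∑ c : Wn n k, F (Function.update z t c) := h7.symm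
          _ ≤ ∑ _z : Za M, (Fintype.card (Wn n k) : ℝ) * (1 / 2 : ℝ) ^ (L ^ 2 / 8) :=
              Finset.sum_le_sum fun z _ => h5 z
          _ = _ := by
              rw [Finset.sum_const, Finset.card_univ, nsmul_eq_mul]
              ring
      exact le_of_mul_le_mul_left h6 hW
    · have : IsEmpty (Za M) := not_nonempty_iff.1 hne
      rw [Fintype.sum_empty, Fintype.card_of_isEmpty]
      simp

end Pool.Agent.H88.XX
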